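import Pool.Agent.Q70.HT.Gen

/-!
# The standard conjecture of Hodge type for varieties whose Tate classes are generated in low codimension

Let `X` be a smooth projective variety over an algebraic closure of a finite field, `D` a divisor with
hard Lefschetz, `W` a Weil cohomology theory whose coefficient field is identified with the complex
numbers by `ι` (for example `ℓ`-adic cohomology with coefficients extended to an algebraic closure), with
Frobenius endomorphisms (`FrobSystem`). We assume:

* `HodgeRiemann W X D ι c`: there is a Hodge-Riemann involution `c` of the cohomology, that is a
  semilinear ring endomorphism which fixes the class of `D`, is an involution in even degrees and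
  satisfies the Hodge-Riemann positivity `(-1) ^ i tr (a · c a · D ^ (n - 2 i)) > 0` for primitive
  classes `a ≠ 0` of degree `2 i`. This holds if `(X, D)` lifts to characteristic zero: take
  `√-1 ^ (q - p)` times the complex conjugation on the part of Hodge type `(p, q)`;
* `PreservesTate`: `c` preserves the Tate classes and their degrees. This holds if a power of the
  Frobenius endomorphism lifts too (as an endomorphism of the Hodge structure), for example for abelian
  varieties (CM liftings), for products of abelian varieties and ordinary K3 surfaces (canonical
  liftings) and of varieties with cellular cohomology;
* `TateGenerated Φ X m`: the Tate classes of degree at most `dim X` are combinations of products of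
  algebraic classes of codimension at most `m`.

**Theorem.** The standard conjecture of Hodge type for `X` and `D` in all codimensions is equivalent
to the conjecture in the codimensions `≤ m`; and if it holds then homological and numerical equivalence
agree on the cycles of codimension at most `dim X / 2`. For `m = 1` (all Tate classes generated by
divisors) the conjecture holds, by the Hodge index theorem (`HodgeIndex`, known in all
characteristics).

In the literature this is known for classes generated by divisors on abelian varieties (Milne). The
positivity is proved as follows: the operator on the classes generated in low codimension that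
compares the intersection form with the positive definite form of `c` is selfadjoint and multiplicative
on products, so that it has positive eigenvalues in all degrees if it has them on the generators. This
is a theorem of the starting tree (`Pool.Agent.Y103.hodge_generated`, not used in a hand-in); new here
is that its assumptions on the ring of algebraic classes (stability under `c` and Lefschetz
decomposition) follow from the assumptions on Tate classes, and the case `m = 1`.
-/

set_option autoImplicit false

open CategoryTheory AlgebraicGeometry

universe u v

namespace Pool.Agent.Results.MP_ffcd14_ag.GeneratedInLowCodimension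

open Pool.Agent.H914 Pool.Agent.H914.VarClass Pool.Agent.H914.VarClass.Obj Pool.Agent.W534
  Pool.Agent.Y103 Pool.Agent.Q70.HT

/-- **The conjecture of Hodge type in low codimensions implies the conjecture in all codimensions** if
the Tate classes are generated in low codimension and there is a Hodge-Riemann involution which
preserves the Tate classes; if they are generated by divisors the conjecture holds. -/
theorem result {k : Type u} [Field k] {𝒱 : VarClass k} {ops : CycleOps 𝒱}
    (W : WeilCohomology.{u, v} ops) (p : ℕ) (Φ : FrobSystem W p) (X : 𝒱.Obj) (D : X.Cycles)
    (hD : X.IsCyc 1 D) (hHL : HardLefschetz W X D)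
    (hdeg : 0 < X.V.degCycle (divPow ops D X.dim X.V.fundCycle)) (ι : W.K ≃+* ℂ)
    (c : W.H X → W.H X) (hc : HodgeRiemann W X D ι c) (hcT : PreservesTate Φ X c) :
    (∀ m, 1 ≤ m → 2 * m ≤ X.dim → TateGenerated Φ X m →
      ((∀ j ≤ m, HodgeTypeIn W X D j) ↔ HodgeType W X D) ∧
      (HodgeType W X D → ∀ j, 2 * j ≤ X.dim → ∀ z, X.IsCyc j z →
        (∀ w, X.IsCyc (X.dim - j) w → X.V.degCycle (ops.mul z w) = 0) → W.cl X z = 0)) ∧
    (2 ≤ X.dim → TateGenerated Φ X 1 → HodgeIndex W X D → HodgeType W X D) := by
  refine ⟨fun m hm1 hm hg => ⟨⟨fun h => (hodge_of_low hD hHL hc hcT hm1 hm hg h).1,
    fun h j hj => h j (by omega)⟩, fun h => (hodge_of_low hD hHL hc hcT hm1 hm hg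
      fun j hj => h j (by omega)).2⟩, fun hn hg hI =>
        (hodge_of_low hD hHL hc hcT le_rfl (by omega) hg ?_).1⟩
  intro j hj
  interval_cases j
  · exact hodge_zero hD hdeg
  · intro z hz hp h0
    have h1 := hI z hz (by
      rw [show X.dim - 1 = X.dim - 2 * 1 + 1 by omega]
      exact hp) h0
    rw [pow_one, mul_one, neg_one_mul]
    exact neg_pos.2 h1

end Pool.Agent.Results.MP_ffcd14_ag.GeneratedInLowCodimension
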