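import Pool.Agent.Q71.TS.Main

/-!
# The standard conjecture of Hodge type for products of powers of varieties with a maximal
# degeneration, or with ordinary K3 slopes

Let `W` be a Weil cohomology theory with an algebraically closed coefficient field on a class of
smooth proper varieties over a field `k` of any characteristic, and `G` a class of varieties, closed
under products, with an action of a group `Γ` with the formal properties of a Galois action (the
example: varieties over a subfield `F` of the algebraically closed field `k`, for instance a field of
functions in positive characteristic, and the Galois group of `F`; `χ` is the inverse of the
cyclotomic character).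

Let `X_i` be polarized varieties in `G` of even dimension which satisfy the standard conjectures of
Lefschetz and of Hodge type (for example surfaces), whose transcendental cohomology `T_i` (the
orthogonal complement of all algebraic classes) is in the middle degree, irreducible under all
subgroups of finite index, and of rank `3` or at least `5`. For every `i` one of the following holds.

* An element `g_i` of `Γ` acts on `T_i` with `(g_i - 1)^3 = 0`, `(g_i - 1)^2 ≠ 0` and `g_i - 1` of
  rank `2`. Example: an element of the inertia group at a place of maximal degeneration (type III
  reduction) of a K3 surface, or of a surface of any geometric genus whose local monodromy has the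
  Jordan blocks `3, 1, ..., 1` on `T_i`.
* An element `F_i` of `Γ` (a Frobenius element) acts on `T_i` with the slopes `h + c`, `h - c`, once
  each, and `h` (ordinary K3 type), for a valuation of the coefficient field.

Suppose that the `T_i` are not isomorphic to each other up to a twist, that for two indices with
rank `8` the element (and the valuation) is the same, and that the cohomology of `Z` is generated by
representations which are small with respect to the `X_i` (see `LocSmallOn`, `SmallFor`; for instance
`Z` has good reduction at the place of `g_i`).

Suppose that `Z` is polarized and satisfies the standard conjectures of Lefschetz and of Hodge type.
Then the standard conjecture of Hodge type and the conjecture D hold for the product of `Z` with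
powers of different `X_i`, with less than `rank T_i` factors `X_i`, with the sum of the pull-backs
of the polarizations. In particular they hold for products of powers of surfaces `X_i` as above. It
is not assumed that the Tate conjecture holds for `X_i` or `Z`.

The proof: every algebraic class on the product is semi-invariant under a subgroup of finite index.
The Lie algebra of the operators which kill all the equivariant multilinear maps contains the
logarithm of `g_i`, an Eichler operator, hence all of `so(T_i)`, and the parts for different `i` are
independent. So the algebraic classes are combinations of products of algebraic classes on the
powers of `X_i`, generated by algebraic classes on the factors and the transcendental parts of the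
diagonals, and of algebraic classes on `Z`.
-/

universe u

namespace Pool.Agent.Results.MP_ffcd14_ag.MaximalDegenerations

open Pool.Agent.H914 Pool.Agent.H281R3.HT Pool.Agent.TH125.Gal Pool.Agent.Q71.TM.P
  Pool.Agent.Q71.TS

/-- **The standard conjecture of Hodge type and the conjecture D for products with powers of
varieties with a maximal degeneration or with ordinary K3 slopes.** -/
theorem result {k : Type u} [Field k] {𝒱 : VarClass k} {ops : CycleOps 𝒱}
    {W : WeilCohomology.{u, 0} ops} (hK : IsAlgClosed W.K) {Γ : Type} [Group Γ] {T : Tw W.K Γ}
    {G : Set (GVar W Γ)} {ι : Type} {l : ι → Loc W.K Γ} {r : ι → ℕ} {X : ι → GVar W Γ}
    {D : ∀ i, (X i).X.Cycles} {Z : GVar W Γ} (h : PolFamily T G l r X D Z) {E : Z.X.Cycles}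
    (hE : IsPol W Z.X E) {L : List (ι × ℕ)} (hL : SmallExps r L) {Y : Polarized 𝒱}
    (hY : Y = polTower ops (fun i => ⟨(X i).X, D i⟩) ⟨Z.X, E⟩ L) :
    HodgeType W Y.X Y.D ∧ HomEqNum W Y.X := by
  subst hY
  exact h.hodge hE hL

end Pool.Agent.Results.MP_ffcd14_ag.MaximalDegenerations
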