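import Mathlib
import Pool.Agent.Q70.SQ.Ord
import Pool.Agent.Q70.SQ.Hodge

/-!
# The standard conjecture of Hodge type for the products of abelian varieties with varieties whose
slopes have a small mean square deviation

Let `q = p ^ a` and let `A` be an abelian variety, of any dimension, over the field with `q`
elements, isogenous to a product of powers of abelian varieties with characteristic polynomials of
Frobenius `f i` (`i` in a finite set), the complex roots of `f i` being the conjugates of a Weil
number `π i` for `q` in a CM field `F i` (`IsPolyOf`). We suppose (the generic case; the first
condition is true, for example, if the Galois group of the normal closure of `F i` consists of all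
permutations of the embeddings compatible with the complex conjugation, or if only some
automorphism exchanges one embedding with its complex conjugate and fixes all the others):

* the functions `n` on the complex embeddings of `F i` with `n (conj φ) = - n φ` are an absolutely
  irreducible representation of the automorphisms of `ℂ` (`OddAbsolutelyIrreducible`), and there
  are no equivariant maps between those of `F i` and `F i'` for `i ≠ i'` (`Unrelated`);
* no `π i` is supersingular (`HasOtherSlope`).

Let `Z` be **any** smooth projective variety over the same field. For an eigenvalue `α` of the
Frobenius endomorphism on the cohomology of `Z` of weight `w` (`|α| = q ^ (w / 2)`) let `d (α)` be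
the mean of `(s - w / 2) ^ 2` over the slopes `s` of all `p`-adic conjugates of `α` (`deviation`,
up to the factor `(log q) ^ 2`), and similarly `d (π i)` with `w = 1`; so `d (π i) = 1 / 4` if `π
i` is ordinary (second part of the theorem). We suppose (`GoodRoots`) that for all eigenvalues `α`
and all `i`

* `α` is unrelated to `F i` (`UnrelatedTo`: a function `n` as above on the embeddings of `F i`
  which is invariant under all automorphisms of `ℂ` that fix a power of `α` is zero), **or**
* `d (α) < d (π i)`, **or**
* the weight of `α` is even and `d (α) < d (π i) + d (π i')` for all `i'` (`SmallDeviation`).

Then (`HodgeTypeFor`), over an algebraic closure of the field, for every ample divisor `D` on `A`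
and every divisor `B` on `Z` with hard Lefschetz, for instance every ample one, **the standard
conjecture of Hodge type holds for `A × Z` and the divisor `D × Z + A × B`, in all codimensions,
if and only if it holds for `Z` and `B`.** So it holds for `A × Z` if `dim Z ≤ 3`, for example for
the K3 surfaces below (for `dim Z ≤ 3` the conjecture is the index theorem for divisors, and
homological and numerical equivalence coincide in the codimensions 0 and 1). In `HodgeType`
positivity is stated for all primitive classes of cycles which are not homologically trivial, so
this contains the positivity for the cycles modulo numerical equivalence. Nothing else is assumed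
on `Z`. What is used of `A` are known theorems (`IsPolarizedAbelian`): the cohomology is generated
by `H^1`, on which Frobenius is diagonalizable (Weil), the theorem of Tate on divisors, the hard
Lefschetz theorem, and the positivity for the classes generated by classes of divisors (Weil,
Milne). That all classes of cycles on `A` are of this kind is a part of what is proved.

Examples, for `A` with ordinary `π i`. The conditions on `α` hold for all `Z` such that the slopes
of Frobenius on `H^(2 v)(Z)` satisfy `|s - v| < 1 / √2` and the odd cohomology vanishes (or is
unrelated to the `F i`, or has slopes with `|s - w / 2| < 1 / 2`). In general they hold for all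
`α` of weight `2 v` whose degree over `ℚ` is more than `2 ∑ (s - v) ^ 2`, the sum over all
conjugates. As the Newton polygon lies above the Hodge polygon, for the second cohomology of a
surface of geometric genus `g` it suffices that all eigenvalues which are not `q` times a root of
unity have degree more than `4 g` (more than four for K3 surfaces, for instance for all K3
surfaces of Picard number at most sixteen whose transcendental Frobenius polynomial is
irreducible). The conditions of this kind do not exclude any relation between the Galois groups of
`A` and `Z`: `ℚ(α)` may be contained in a field `F i`, or in its Galois closure. As `q` and the `π
i` are arbitrary the theorem can be applied over all finite extensions of the ground field.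

Relation to the starting files and to this team. For the conjecture A there is
`MP_0273e8_ag.AllCMTypesTimes` (starting files), for the conjecture of Hodge type
`MP_361a6f_ag.AllCMTypesTimes` (helper70) and `MP_361a6f_ag.AlmostAllAbelianTimes` (helper64, from
which the reduction of the conjecture to relations, `hodge_iff`, is taken), where the `α` are
unrelated to the `F i`, or are of small rank; the abelian varieties are those of almost all slope
types, or almost all of fixed dimension. New here are the second and the third alternative (no
condition on Galois groups, only on slopes), for all absolutely irreducible fields. The starting
files of this problem have powers of K3 surfaces (`PowersOfK3`), but not their products with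
abelian varieties.

The proof. A multiplicative relation between `α`, a power of `q` and a product of conjugates of
the `π i` gives, for each automorphism `σ` of a Galois closure `L`, the linear relation `s (σ α) -
w / 2 = ∑ x, n x (s (σ x) - 1 / 2)` between slopes, up to signs, where the sum is over one
embedding `x` of each conjugate pair and `n x` is the difference of the multiplicities of `x` and
`bar x`. The second moments `∑ σ, (s (σ x) - 1 / 2) (s (σ y) - 1 / 2)` are an invariant form on
the odd functions; it is real valued, but all its compositions with rational functionals `ℝ → ℚ`
are rational invariant forms, and so the slopes at different pairs `x`, `y` are uncorrelated, by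
Schur's lemma. Hence `d (α) = ∑ x, (n x) ^ 2 d (π x)`. If the weight is even, so is the sum of all
multiplicities, and a single `n x = ± 1` is impossible. So all `n x` are zero (`noRel_good`). The
rest is the theory of Lefschetz of the starting files (TH132.A).
-/

set_option autoImplicit false

namespace Pool.Agent.Results.MP_ffcd14_ag.SmallSlopeDeviation

open NumberField Module Polynomial IntermediateField Pool.Agent.Y137.MV Pool.Agent.Y137.SL
  Pool.Agent.Y1.CT Pool.Agent.TH170.GS Pool.Agent.TH170 Pool.Agent.Q70.SQ

/-- **The standard conjecture of Hodge type holds for `A × Z` if and only if it holds for `Z`, for
the abelian varieties `A` over finite fields with absolutely irreducible, unrelated CM fields and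
no supersingular part, and all varieties `Z` each of whose Frobenius eigenvalues is unrelated to
these fields or has small mean square slope deviation.** -/
theorem result :
    (∀ (p : ℕ) [Fact p.Prime] (a : ℕ) (I : Type) [Fintype I] (F : I → Type)
      [∀ i, Field (F i)] [∀ i, NumberField (F i)] [∀ i, IsCMField (F i)] (π : ∀ i, F i)
      (f : I → ℤ[X]), 0 < a →
      (∀ i, π i * IsCMField.complexConj (F i) (π i) = (p : F i) ^ a) →
      (∀ i, OddAbsolutelyIrreducible (F i)) →
      (∀ i i', i ≠ i' → Pool.Agent.Y137.MV.Unrelated (F i) (F i')) →
      (∀ i, HasOtherSlope p a (π i)) → (∀ i, IsPolyOf (π i) (f i)) →
      HodgeTypeFor (GoodRoots p a π) (p ^ a) f) ∧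
    (∀ (p : ℕ) [Fact p.Prime] (a : ℕ) (F : Type) [Field F] [NumberField F] (π : F),
      IsOrdinary p a π → weilDeviation p a π = (a * Real.log p) ^ 2 / 4) := by
  refine ⟨?_, ?_⟩
  · intro p _ a I _ F _ _ _ π f ha hw habs hun hns hf
    exact hodgeTypeFor_of (Nat.one_lt_pow ha.ne' (Fact.out : p.Prime).one_lt)
      (noRel_good ha hw habs hun hns f hf)
  · intro p _ a F _ _ π h
    exact weilDeviation_ordinary h

end Pool.Agent.Results.MP_ffcd14_ag.SmallSlopeDeviation
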