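import Mathlib
import Pool.Agent.Q70.HN.Hodge
import Pool.Agent.Q70.SQ.Hodge
import Pool.Agent.Q70.MM.Times

/-!
# The standard conjecture of Hodge type for abelian varieties over finite fields with several
non-isogenous factors with the same CM field

Let `A` be an abelian variety, of any dimension, over the field with `q = p ^ a` elements. The earlier
theorems on the standard conjecture of Hodge type for products of abelian varieties of large
dimension (see below) suppose that the simple factors which are not isogenous have different and
unrelated CM fields. Here `A` may have several factors `A c l` (`l` in a finite set `J c`) with the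
**same** CM field `K c`. We suppose:

* the functions `n` on the complex embeddings of `K c` with `n (conj φ) = - n φ` are an absolutely
  irreducible representation of the automorphisms of `ℂ` (`OddAbsolutelyIrreducible`; the generic
  case, it is true, for example, if the Galois group of the normal closure of `K c` consists of all
  permutations of the embeddings compatible with the complex conjugation, or if only some
  automorphism exchanges one embedding with its complex conjugate and fixes all the others);
* there are no equivariant maps between these functions for `K c` and `K c'` if `c ≠ c'`
  (`Unrelated`);
* `A` is isogenous to a product of powers of abelian varieties with the characteristic polynomials of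
  Frobenius `f i`, `i = (c, l)`, the complex roots of `f i` being conjugates of a Weil number `π c l`
  for `q` in `K c` (`IsPolyOf`).

**Theorem** (first part). Suppose that for each `c` the slopes of the numbers `π c l`, `l` in `J c`, as
functions on the set of the embeddings of `K c` into the algebraic closure of `ℚ_p`, minus `1 / 2`,
are linearly independent over `ℚ` (`IndependentSlopes`). Let `Z` be a smooth projective variety over
the same field all of whose Frobenius eigenvalues are unrelated to the fields `K c` or have smaller
degree than `K c` (`HarmlessRoots`; `Z` may be a point, and any variety with Betti numbers smaller
than the degrees `[K c : ℚ]`). Then (`HodgeTypeFor`), over an algebraic closure of the field, for every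
ample divisor `D` on `A` and every divisor `B` on `Z` with hard Lefschetz, for instance every ample
one, **the standard conjecture of Hodge type holds for `A × Z` and the divisor `D × Z + A × B`, in
all codimensions, if and only if it holds for `Z` and `B`.** In particular (`Z` a point) the standard
conjecture of Hodge type is true for `A` and, as only the factors matter and not their powers, for
all powers of `A`; and (for `dim Z ≤ 3`, by the index theorem) it is true for the products of `A` with
all surfaces and threefolds `Z` with Betti numbers smaller than all `[K c : ℚ]`.

**Second part (ordinary abelian varieties): at most three non-isogenous factors for each field.** If all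
`π c l` are ordinary, no set `J c` has more than three elements, and for `l ≠ l'` the slopes of
`π c l` and `π c l'` are neither equal nor opposite (`DifferentSlopes`; for ordinary numbers this means
that no positive powers are equal or complex conjugate, so it means that `A c l` and `A c l'` are not
isogenous over an extension of the ground field), then the conclusion holds. For example: for each CM
field `K` of degree `2 g` as above, the standard conjecture of Hodge type holds for all abelian
varieties isogenous to products of powers of three (or two) ordinary abelian varieties of
dimension `g` with complex multiplication by `K`. The number three is optimal for the method: a CM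
field of degree six has, for a prime number `p` that splits completely, four pairs of conjugate
ordinary types, with a linear relation, and the product of the four abelian threefolds has exotic
Tate classes.

In `HodgeType` positivity is stated for all primitive classes of cycles which are not homologically
trivial, so this contains the positivity for the cycles modulo numerical equivalence. What is used of
`A` are known theorems (`IsPolarizedAbelian`): the cohomology is generated by `H^1`, on which
Frobenius is diagonalizable (Weil), the theorem of Tate on divisors, the hard Lefschetz theorem, and
the positivity for the classes generated by classes of divisors (Weil, Milne). That all classes of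
cycles on `A` are of this kind is a part of what is proved.

Relation to the starting files and to the results of this team. The starting theorem
`AlmostAllSlopeTypes` (this folder), `AlmostAllAbelianTimes` (MP_361a6f_ag, helper64, from which the
reduction to relations, `hodge_iff`, is taken) and the theorems `SmallSlopeDeviation` (this folder),
`TimesSmallHodgeNumbers` (MP_361a6f_ag) of helper70 are about products of powers of abelian
varieties with pairwise unrelated fields, one for each field; `DimensionFiveAndSurfaces`
(MP_361a6f_ag) and `OrdinaryDimensionFive` (this folder) have dimension at most five (or simple
factors of dimension at most three, those of dimension three with different Galois closures). The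
criterion for relations is the one of `ThreeTypesPerField` (MP_950c68_ag, helper70), on the Tate
conjecture. New here: the conjecture of Hodge type for several ordinary factors of arbitrary
dimension with the same CM field.

The proof. A relation between the conjugates of the `π c l` gives rational odd functions `n c l` on the
embeddings of `K c` such that `∑ c, ∑ l, ∑ x, n c l x * u c l (σ x) = 0` for all `σ` in the Galois
group, where `u c l` is the slope function minus `1 / 2`. Summing the square over `σ`, by Schur's
lemma for the invariant form `∑ σ, u c l (σ x) * u c' l' (σ y)`, which is zero for `c ≠ c'` or
`y ≠ x, conj x`, one obtains `∑ l, n c l x * u c l (σ x) = 0` for each single `x`, `c` and `σ`, that is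
a linear relation between the slope functions of the `π c l`, `l` in `J c`, with the coefficients
`n c l x`. So these are zero. For ordinary numbers the `u c l` are functions with two opposite values,
and three such functions, no two of which are equal or opposite, are linearly independent. The rest
is the theory of Lefschetz of the starting files (TH132.A).
-/

set_option autoImplicit false

namespace Pool.Agent.Results.MP_ffcd14_ag.ThreeTypesPerField

open NumberField Module Polynomial Pool.Agent.Y137.MV Pool.Agent.Y137.SL Pool.Agent.Y1.CT
  Pool.Agent.Q70.SQ Pool.Agent.Q70.MM

/-- **The standard conjecture of Hodge type holds for `A × Z` if and only if it holds for `Z`, for the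
abelian varieties `A` over finite fields which are products of powers of abelian varieties with
absolutely irreducible CM fields, pairwise equal or unrelated, those with the same field having
linearly independent slopes (first part), for instance of at most three non-isogenous ordinary ones
for each field (second part), and all `Z` with eigenvalues unrelated to these fields or of smaller
degree.** -/
theorem result :
    (∀ (p : ℕ) [Fact p.Prime] (a : ℕ) (C : Type) [Fintype C] (K : C → Type)
      [∀ c, Field (K c)] [∀ c, NumberField (K c)] [∀ c, IsCMField (K c)]
      (J : C → Type) [∀ c, Fintype (J c)] (π : ∀ c, J c → K c) (f : (Σ c, J c) → ℤ[X]), 0 < a →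
      (∀ c l, π c l * IsCMField.complexConj (K c) (π c l) = (p : K c) ^ a) →
      (∀ c, OddAbsolutelyIrreducible (K c)) →
      (∀ c c', c ≠ c' → Pool.Agent.Y137.MV.Unrelated (K c) (K c')) →
      IndependentSlopes p a π → (∀ i, IsPolyOf (π i.1 i.2) (f i)) →
      HodgeTypeFor (HarmlessRoots K) (p ^ a) f) ∧
    (∀ (p : ℕ) [Fact p.Prime] (a : ℕ) (C : Type) [Fintype C] (K : C → Type)
      [∀ c, Field (K c)] [∀ c, NumberField (K c)] [∀ c, IsCMField (K c)]
      (J : C → Type) [∀ c, Fintype (J c)] (π : ∀ c, J c → K c) (f : (Σ c, J c) → ℤ[X]), 0 < a →
      (∀ c l, π c l * IsCMField.complexConj (K c) (π c l) = (p : K c) ^ a) →
      (∀ c, OddAbsolutelyIrreducible (K c)) →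
      (∀ c c', c ≠ c' → Pool.Agent.Y137.MV.Unrelated (K c) (K c')) →
      (∀ c, Fintype.card (J c) ≤ 3) → (∀ c l, IsOrdinary p a (π c l)) →
      (∀ c l l', l ≠ l' → DifferentSlopes p a (π c l) (π c l')) →
      (∀ i, IsPolyOf (π i.1 i.2) (f i)) →
      HodgeTypeFor (HarmlessRoots K) (p ^ a) f) := by
  have hgen : ∀ (p : ℕ) [Fact p.Prime] (a : ℕ) (C : Type) [Fintype C] (K : C → Type)
      [∀ c, Field (K c)] [∀ c, NumberField (K c)] [∀ c, IsCMField (K c)]
      (J : C → Type) [∀ c, Fintype (J c)] (π : ∀ c, J c → K c) (f : (Σ c, J c) → ℤ[X]), 0 < a →
      (∀ c l, π c l * IsCMField.complexConj (K c) (π c l) = (p : K c) ^ a) →
      (∀ c, OddAbsolutelyIrreducible (K c)) →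
      (∀ c c', c ≠ c' → Pool.Agent.Y137.MV.Unrelated (K c) (K c')) →
      IndependentSlopes p a π → (∀ i, IsPolyOf (π i.1 i.2) (f i)) →
      HodgeTypeFor (HarmlessRoots K) (p ^ a) f := by
    intro p _ a C _ K _ _ _ J _ π f ha hw habs hun hind hf
    have hang := angle_same π ha hw habs hun hind
    have hno := noRel_of_angle (F := fun i : Σ c, J c => K i.1) hang (fun i => hw i.1 i.2) f hf
    exact Pool.Agent.Q70.HN.hodgeTypeFor_mono (fun χ hχ ρ hρ =>
      ⟨(unrelated_of_harmless (fun c => (habs c).1) (hχ ρ hρ)).1,
        fun i => (unrelated_of_harmless (fun c => (habs c).1) (hχ ρ hρ)).2 i.1⟩)
      (hodgeTypeFor_of (Nat.one_lt_pow ha.ne' (Fact.out : p.Prime).one_lt) hno)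
  refine ⟨hgen, ?_⟩
  intro p _ a C _ K _ _ _ J _ π f ha hw habs hun hcard hord hdiff hf
  exact hgen p a C K J π f ha hw habs hun (independent_of_three π ha hcard hord hdiff) hf

end Pool.Agent.Results.MP_ffcd14_ag.ThreeTypesPerField
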